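import Mathlib
import Pool.Agent.Helper873.Birch.Main

set_option autoImplicit false

namespace Pool.Agent.Results.MP_daa8d5_co.FirstCase

open Pool.Agent.Helper873.Birch

/-- Birch's question: `(m + t - 2) d + 2` points always have a `t`-good partition into `m` classes;
and Birch's number `(m - 1) d + t + 1` of points suffices whenever `t = 1`, or `t = m - 1`, or
`m ≤ 3`, or `d ≤ 1`. -/
theorem result :
    (∀ d m t : ℕ, 1 ≤ t → t < m → ∀ S : Finset (EuclideanSpace ℝ (Fin d)),
      (m + t - 2) * d + 2 ≤ S.card → TGood S m t) ∧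
    (∀ d m t : ℕ, 1 ≤ t → t < m → (t = 1 ∨ t = m - 1 ∨ m ≤ 3 ∨ d ≤ 1) →
      ∀ S : Finset (EuclideanSpace ℝ (Fin d)), S.card = (m - 1) * d + t + 1 → TGood S m t) :=
  ⟨fun d m t ht htm S hS => main_bound d m t ht htm S hS,
   fun d m t ht htm h S hS => birch_cases d m t ht htm h S hS⟩

end Pool.Agent.Results.MP_daa8d5_co.FirstCase
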